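import Pool.Agent.H56.KAL.Stmts

/-!
# Module GIB: a law with small entropy deficit gives small mass to small sets
-/

set_option autoImplicit false

namespace Pool.KAL

open Finset Real MeasureTheory
open Pool.Agent.H49.Ent Pool.Agent.H32.Dense Pool.STK Pool.KAF

theorem gib_thm : GIBStmt := by
  classical
  intro Ω S _ p T F E e β hp hF hEF hβ hPr hH
  have hp0 := hp.nonneg
  have hPrEq : Pr p {ω | T ω ∈ E} = ∑ ω, p ω * (if T ω ∈ E then 1 else 0) := by
    unfold Pr law
    refine Finset.sum_congr rfl fun ω _ => ?_
    by_cases h : T ω ∈ E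
    · rw [if_pos h, if_pos]
      · ring
      · simpa using h
    · rw [if_neg h, if_neg]
      · ring
      · simpa using h
  have hPos : 0 < Pr p {ω | T ω ∈ E} := lt_of_lt_of_le hβ hPr
  obtain ⟨ω₀, hω₀⟩ : ∃ ω, T ω ∈ E := by
    by_contra hcon
    rw [not_exists] at hcon
    have : Pr p {ω | T ω ∈ E} = 0 := by
      rw [hPrEq]
      exact Finset.sum_eq_zero fun ω _ => by rw [if_neg (hcon ω), mul_zero]
    linarith
  have hE0 : 0 < E.card := Finset.card_pos.mpr ⟨_, hω₀⟩
  have hF0 : 0 < F.card := Finset.card_pos.mpr ⟨_, hF ω₀⟩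
  have hE1 : (0 : ℝ) < E.card := by exact_mod_cast hE0
  have hF1 : (0 : ℝ) < F.card := by exact_mod_cast hF0
  have hEF' : (E.card : ℝ) ≤ F.card := by exact_mod_cast Finset.card_le_card hEF
  set q : Unit → S → ℝ := fun _ x =>
    if x ∈ E then 1 / (2 * E.card) else if x ∈ F then 1 / (2 * F.card) else 0 with hq
  have hHle : H p T ≤ Ex p (fun ω => -Real.log (q () (T ω))) := by
    have h := CH_le_cross hp0 hp.sum_one T (fun _ => ()) q ?_ ?_ ?_
    · have hc : CH p T (fun _ : Ω => ()) = H p T := by
        unfold CH
        rw [H_const hp.sum_one, sub_zero]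
        refine H_congr hp0 ?_ ?_
        · intro ω ω' _ _ h
          simpa using h
        · intro ω ω' _ _ h
          simpa using h
      rw [hc] at h
      exact h
    · intro ω _
      simp only [hq]
      by_cases h : T ω ∈ E
      · rw [if_pos h]; positivity
      · rw [if_neg h, if_pos (hF ω)]; positivity
    · intro w x
      simp only [hq]
      split_ifs <;> positivity
    · intro ω _ G
      have h1 : ∀ x ∈ G, q () x ≤ (if x ∈ E then 1 / (2 * (E.card : ℝ)) else 0) +
          (if x ∈ F then 1 / (2 * (F.card : ℝ)) else 0) := by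
        intro x _
        simp only [hq]
        by_cases hxE : x ∈ E
        · rw [if_pos hxE, if_pos hxE]
          have : 0 ≤ (if x ∈ F then 1 / (2 * (F.card : ℝ)) else 0) := by
            split_ifs <;> positivity
          linarith
        · rw [if_neg hxE, if_neg hxE, zero_add]
      refine (Finset.sum_le_sum h1).trans ?_
      rw [Finset.sum_add_distrib, ← Finset.sum_filter, ← Finset.sum_filter, Finset.sum_const,
        Finset.sum_const, nsmul_eq_mul, nsmul_eq_mul]
      have h2 : ((G.filter fun x => x ∈ E).card : ℝ) ≤ E.card := by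
        exact_mod_cast Finset.card_le_card fun x hx => (Finset.mem_filter.mp hx).2
      have h3 : ((G.filter fun x => x ∈ F).card : ℝ) ≤ F.card := by
        exact_mod_cast Finset.card_le_card fun x hx => (Finset.mem_filter.mp hx).2
      have h4 : ((G.filter fun x => x ∈ E).card : ℝ) * (1 / (2 * E.card)) ≤
          E.card * (1 / (2 * E.card)) := mul_le_mul_of_nonneg_right h2 (by positivity)
      have h5 : ((G.filter fun x => x ∈ F).card : ℝ) * (1 / (2 * F.card)) ≤
          F.card * (1 / (2 * F.card)) := mul_le_mul_of_nonneg_right h3 (by positivity)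
      have h6 : (E.card : ℝ) * (1 / (2 * E.card)) = 1 / 2 := by field_simp
      have h7 : (F.card : ℝ) * (1 / (2 * F.card)) = 1 / 2 := by field_simp
      linarith
  have hlog : ∀ ω, -Real.log (q () (T ω)) = (Real.log 2 + Real.log F.card) -
      (Real.log F.card - Real.log E.card) * (if T ω ∈ E then 1 else 0) := by
    intro ω
    simp only [hq]
    by_cases h : T ω ∈ E
    · rw [if_pos h, if_pos h, one_div, Real.log_inv, Real.log_mul (by norm_num) hE1.ne']
      ring
    · rw [if_neg h, if_neg h, if_pos (hF ω), one_div, Real.log_inv,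
        Real.log_mul (by norm_num) hF1.ne']
      ring
  have hEx : Ex p (fun ω => -Real.log (q () (T ω))) = (Real.log 2 + Real.log F.card) -
      (Real.log F.card - Real.log E.card) * Pr p {ω | T ω ∈ E} := by
    rw [hPrEq]
    unfold Ex
    have h1 : ∀ ω, p ω * -Real.log (q () (T ω)) = p ω * (Real.log 2 + Real.log F.card) -
        (Real.log F.card - Real.log E.card) * (p ω * (if T ω ∈ E then 1 else 0)) := by
      intro ω
      rw [hlog ω]
      ring
    rw [Finset.sum_congr rfl fun ω _ => h1 ω, Finset.sum_sub_distrib, ← Finset.sum_mul,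
      hp.sum_one, one_mul, ← Finset.mul_sum]
  have hdiff : 0 ≤ Real.log F.card - Real.log E.card := by
    have := Real.log_le_log hE1 hEF'
    linarith
  have hmain : β * (Real.log F.card - Real.log E.card) ≤ e + Real.log 2 := by
    have h1 : β * (Real.log F.card - Real.log E.card) ≤
        Pr p {ω | T ω ∈ E} * (Real.log F.card - Real.log E.card) :=
      mul_le_mul_of_nonneg_right hPr hdiff
    rw [hEx] at hHle
    linarith
  have hfin : Real.log F.card - (e + Real.log 2) / β ≤ Real.log E.card := by
    have h1 : Real.log F.card - Real.log E.card ≤ (e + Real.log 2) / β := by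
      rw [le_div_iff₀ hβ]
      linarith
    linarith
  have h := Real.exp_le_exp.mpr hfin
  rw [Real.exp_log hE1] at h
  refine le_trans (le_of_eq ?_) h
  rw [sub_eq_add_neg, Real.exp_add, Real.exp_log hF1]
  ring

end Pool.KAL
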